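import Pool.Agent.Helper29.SH.Goals

/-!
# Project SH, packet POW
-/

set_option autoImplicit false

namespace Pool.Agent.Helper24.SH

open Subgroup Pool.H83Shunkov Pool.Agent.Helper29.SH

/-- **POW.** -/
theorem t_POW : S_POW := by
  intro M _ a K p i hp ha hi hF k hk hka
  refine hF k hk ?_
  have h1 : Nat.Coprime i p := ((Nat.Prime.coprime_iff_not_dvd hp).2 hi).symm
  obtain ⟨u, v, huv⟩ := Nat.isCoprime_iff_coprime.2 h1
  have h2 : a = (a ^ i) ^ u := by
    have h3 : a ^ (u * (i : ℤ) + v * (p : ℤ)) = (a ^ i) ^ u := by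
      rw [zpow_add, mul_comm u, zpow_mul, zpow_natCast, mul_comm v, zpow_mul, zpow_natCast, ha,
        one_zpow, mul_one]
    rw [← h3, huv, zpow_one]
  have h3 : Commute k ((a ^ i) ^ u) := (show Commute k (a ^ i) from hka).zpow_right u
  rw [← h2] at h3
  exact h3

end Pool.Agent.Helper24.SH
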