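import Pool.Agent.Helper29.SH.Goals

/-!
# Project SH, packet SYE: an invariant Sylow subgroup
-/

set_option autoImplicit false

namespace Pool.Agent.Helper24.SH

open Subgroup Pool.H83Shunkov Pool.Agent.Helper29.SH

section

variable {M : Type} [Group M] (a : M) (K : Subgroup M) (hI : Inv a K)

/-- Conjugation by `a` as an endomorphism of `K`. -/
def cj : K →* K where
  toFun k := ⟨a⁻¹ * k * a, hI k k.2⟩
  map_one' := by
    apply Subtype.ext
    show a⁻¹ * 1 * a = 1
    group
  map_mul' x y := by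
    apply Subtype.ext
    show a⁻¹ * ((x : M) * y) * a = a⁻¹ * x * a * (a⁻¹ * y * a)
    group

theorem cj_inj : Function.Injective (cj a K hI) := by
  intro x y h
  have h1 : a⁻¹ * (x : M) * a = a⁻¹ * y * a := congrArg Subtype.val h
  exact Subtype.ext (mul_left_cancel (mul_right_cancel h1))

variable [Finite K]

/-- Conjugation by `a` as an automorphism of the finite group `K`. -/
noncomputable def cja : MulAut K :=
  MulEquiv.ofBijective (cj a K hI) (Finite.injective_iff_bijective.1 (cj_inj a K hI))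

theorem cja_apply (k : K) : ((cja a K hI k : K) : M) = a⁻¹ * k * a := rfl

theorem cja_pow (n : ℕ) (k : K) : (((cja a K hI) ^ n) k : M) = (a ^ n)⁻¹ * k * a ^ n := by
  induction n generalizing k with
  | zero =>
    rw [pow_zero, pow_zero, MulAut.one_apply]
    group
  | succ n ih =>
    rw [pow_succ, MulAut.mul_apply, ih, cja_apply, pow_succ']
    group

theorem cja_pow_eq (p : ℕ) (ha : a ^ p = 1) : (cja a K hI) ^ p = 1 := by
  apply MulEquiv.ext
  intro k
  apply Subtype.ext
  rw [cja_pow, ha, MulAut.one_apply]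
  group

theorem isPGroup_zpowers {G : Type} [Group G] (g : G) (p : ℕ) (h : g ^ p = 1) :
    IsPGroup p (zpowers g) := by
  rintro ⟨x, n, rfl⟩
  refine ⟨1, Subtype.ext ?_⟩
  show (g ^ n) ^ p ^ 1 = 1
  rw [pow_one, ← zpow_natCast, ← zpow_mul, mul_comm, zpow_mul, zpow_natCast, h, one_zpow]

end

/-- **SYE.** -/
theorem t_SYE (hC : S_CARD) : S_SYE := by
  intro M _ a K p q hK hI hF hp ha hq
  haveI : Finite K := hK
  haveI : Fact p.Prime := ⟨hp⟩
  haveI : Fact q.Prime := ⟨hq⟩
  have h1 : ¬ p ∣ Nat.card K := hC M a K p hK hI hF hp ha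
  have h2 : ¬ p ∣ Nat.card (Sylow q K) := fun h =>
    h1 (h.trans ((Sylow.card_dvd_index (default : Sylow q K)).trans (Subgroup.index_dvd_card _)))
  have h3 : IsPGroup p (zpowers (cja a K hI)) :=
    isPGroup_zpowers _ p (cja_pow_eq a K hI p ha)
  obtain ⟨P, hP⟩ := h3.nonempty_fixed_point_of_prime_not_dvd_card (Sylow q K) h2
  have h4 := hP ⟨cja a K hI, mem_zpowers _⟩
  refine ⟨(P : Subgroup K).map K.subtype, map_subtype_le _, ?_, ?_⟩
  · rw [← Sylow.card_eq_multiplicity P]
    exact Nat.card_congr ((P : Subgroup K).equivMapOfInjective _ K.subtype_injective).symm.toEquiv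
  · rintro _ ⟨x, hx, rfl⟩
    refine ⟨cja a K hI x, ?_, rfl⟩
    have h5 : (cja a K hI) x ∈ ((⟨cja a K hI, mem_zpowers _⟩ : zpowers (cja a K hI)) • P :
        Sylow q K) := Subgroup.smul_mem_pointwise_smul x _ _ hx
    rw [h4] at h5
    exact h5

end Pool.Agent.Helper24.SH
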